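import Pool.Agent.H349.QP.Ind

/-!
# Quandle products of finitely many groups of type `F_n` are of type `F_n`

This answers Q1 of MP_c78901_al positively, for every `n` and without the hypothesis of trivial
holonomy.

* `P` is the collection `P(𝕊)` of nonempty subsets of `𝕊`, `G R` is the factor of `R ∈ P`, and
  `Σ R, G R` is the set of all elements of all factors. `star h g` is `h ∗ g`; only its values at
  `h ∈ G_S`, `g ∈ G_R` with `R ⊊ S` are used.
* The relation `g h = h (h ∗ g)` means that `h ∗ g = h⁻¹ g h`, which is compatible with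
  `(h k) ∗ g = k ∗ (h ∗ g)` (an action from the right, `RightAction`). With actions from the left,
  `(h k) ∗ g = h ∗ (k ∗ g)` (`LeftAction`), the relation is `h g = (h ∗ g) h`. The theorem is proved
  for both conventions (`Product` and `LeftProduct`).
* A group is of type `F_1` if and only if it is finitely generated, and of type `F_n`, `n ≥ 2`, if
  and only if it is finitely presented and of type `FP_n` (`TypeF`).

Proof: for a maximal `T ∈ P` the group is the amalgamated product of the quandle product over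
`P \ {T}` and of `C ⋊ G_T` over `C`, where `C` is the quandle product over the members of `P`
properly contained in `T` or disjoint from `T`; quandle products over downward closed subsets embed.
-/

set_option autoImplicit false

namespace Pool.Agent.Results.MP_c78901_al.TypeFn

/-- The data of a quandle product (without the law of composition of the actions). -/
structure QuandleSystem {𝕊 : Type} (P : Set (Set 𝕊)) (G : P → Type) [∀ R, Group (G R)] where
  /-- `star h g = h ∗ g`; only the values at `h ∈ G_S`, `g ∈ G_R`, `R ⊊ S` matter -/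
  star : (Σ R, G R) → (Σ R, G R) → (Σ R, G R)
  /-- the members of `P` are nonempty -/
  nonempty : ∀ R ∈ P, R.Nonempty
  /-- `h ∈ G_S` maps the factor `G_R`, `R ⊊ S`, isomorphically onto a factor `G_{R'}`, `R' ⊊ S` -/
  iso : ∀ (S : P) (h : G S) (R : P), R.1 ⊂ S.1 → ∃ (R' : P) (e : G R ≃* G R'), R'.1 ⊂ S.1 ∧
    ∀ g : G R, star ⟨S, h⟩ ⟨R, g⟩ = ⟨R', e g⟩
  /-- `1 ∗ x = x` -/
  one_star : ∀ (S : P) (x : Σ R, G R), x.1.1 ⊂ S.1 → star ⟨S, 1⟩ x = x
  /-- the action on the members of `P` preserves inclusions -/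
  subset : ∀ k x y : (Σ R, G R), x.1.1 ⊂ k.1.1 → y.1.1 ⊂ k.1.1 → x.1.1 ⊆ y.1.1 →
    (star k x).1.1 ⊆ (star k y).1.1
  /-- the action on the members of `P` preserves disjointness -/
  disjoint : ∀ k x y : (Σ R, G R), x.1.1 ⊂ k.1.1 → y.1.1 ⊂ k.1.1 → Disjoint x.1.1 y.1.1 →
    Disjoint (star k x).1.1 (star k y).1.1
  /-- the quandle relation `k ∗ (h ∗ g) = (k ∗ h) ∗ (k ∗ g)` -/
  quandle : ∀ k h g : (Σ R, G R), h.1.1 ⊂ k.1.1 → g.1.1 ⊂ h.1.1 →
    star k (star h g) = star (star k h) (star k g)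

section
variable {𝕊 : Type} {P : Set (Set 𝕊)} {G : P → Type} [∀ R, Group (G R)]

/-- the actions compose as `(h k) ∗ x = k ∗ (h ∗ x)` -/
def QuandleSystem.RightAction (Q : QuandleSystem P G) : Prop :=
  ∀ (S : P) (h k : G S) (x : Σ R, G R), x.1.1 ⊂ S.1 →
    Q.star ⟨S, h * k⟩ x = Q.star ⟨S, k⟩ (Q.star ⟨S, h⟩ x)

/-- the actions compose as `(h k) ∗ x = h ∗ (k ∗ x)` -/
def QuandleSystem.LeftAction (Q : QuandleSystem P G) : Prop :=
  ∀ (S : P) (h k : G S) (x : Σ R, G R), x.1.1 ⊂ S.1 →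
    Q.star ⟨S, h * k⟩ x = Q.star ⟨S, h⟩ (Q.star ⟨S, k⟩ x)

/-- an element of a factor as an element of the free product of the factors -/
def gen (x : Σ R, G R) : Monoid.CoprodI G := Monoid.CoprodI.of (i := x.1) x.2

/-- the relations `g h = h g` for `g ∈ G_R`, `h ∈ G_S`, `R ∩ S = ∅` -/
def commRels (G : P → Type) [∀ R, Group (G R)] : Set (Monoid.CoprodI G) :=
  {w | ∃ g h : (Σ R, G R), Disjoint g.1.1 h.1.1 ∧ w = gen g * gen h * (gen h * gen g)⁻¹}

/-- the relations `g h = h (h ∗ g)` for `g ∈ G_R`, `h ∈ G_S`, `R ⊊ S` -/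
def QuandleSystem.rels (Q : QuandleSystem P G) : Set (Monoid.CoprodI G) :=
  {w | ∃ g h : (Σ R, G R), g.1.1 ⊂ h.1.1 ∧ w = gen g * gen h * (gen h * gen (Q.star h g))⁻¹}

/-- the relations `h g = (h ∗ g) h` for `g ∈ G_R`, `h ∈ G_S`, `R ⊊ S` -/
def QuandleSystem.leftRels (Q : QuandleSystem P G) : Set (Monoid.CoprodI G) :=
  {w | ∃ g h : (Σ R, G R), g.1.1 ⊂ h.1.1 ∧ w = gen h * gen g * (gen (Q.star h g) * gen h)⁻¹}

/-- The quandle product: the free product of the factors modulo `g h = h g` for `g ∈ G_R`,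
`h ∈ G_S`, `R ∩ S = ∅`, and `g h = h (h ∗ g)` for `g ∈ G_R`, `h ∈ G_S`, `R ⊊ S`. -/
def QuandleSystem.Product (Q : QuandleSystem P G) : Type :=
  Monoid.CoprodI G ⧸ Subgroup.normalClosure (commRels G ∪ Q.rels)

instance (Q : QuandleSystem P G) : Group Q.Product :=
  QuotientGroup.Quotient.group (Subgroup.normalClosure (commRels G ∪ Q.rels))

/-- The quandle product for actions from the left: the second relation is `h g = (h ∗ g) h`. -/
def QuandleSystem.LeftProduct (Q : QuandleSystem P G) : Type :=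
  Monoid.CoprodI G ⧸ Subgroup.normalClosure (commRels G ∪ Q.leftRels)

instance (Q : QuandleSystem P G) : Group Q.LeftProduct :=
  QuotientGroup.Quotient.group (Subgroup.normalClosure (commRels G ∪ Q.leftRels))

end

/-- `G` has a finite presentation. -/
def FinitelyPresented (G : Type) [Group G] : Prop :=
  ∃ (r : ℕ) (f : FreeGroup (Fin r) →* G) (S : Finset (FreeGroup (Fin r))),
    Function.Surjective f ∧ f.ker = Subgroup.normalClosure (↑S : Set (FreeGroup (Fin r)))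

/-- `G` is of type `FP_m` over `ℤ`: there are free `ℤG`-modules `F_i = (ℤG)^{k i}` of finite rank
and maps `F_m → ⋯ → F_1 → F_0 → ℤ → 0`, exact at `ℤ` and at `F_0, …, F_{m-1}`; the map `F_0 → ℤ` is
the sum of the augmentations `ε` of the coordinates. -/
def TypeFP (m : ℕ) (G : Type) [Group G] : Prop :=
  ∃ (k : ℕ → ℕ) (ε : MonoidAlgebra ℤ G →+* ℤ)
    (d : ∀ i : ℕ, (Fin (k (i + 1)) → MonoidAlgebra ℤ G) →ₗ[MonoidAlgebra ℤ G]
      (Fin (k i) → MonoidAlgebra ℤ G)),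
    (∀ g : G, ε (MonoidAlgebra.of ℤ G g) = 1) ∧
    (∃ x : Fin (k 0) → MonoidAlgebra ℤ G, ∑ j, ε (x j) = 1) ∧
    (0 < m → ∀ x : Fin (k 0) → MonoidAlgebra ℤ G,
      (∑ j, ε (x j) = 0 ↔ x ∈ LinearMap.range (d 0))) ∧
    (∀ j : ℕ, j + 2 ≤ m → LinearMap.range (d (j + 1)) = LinearMap.ker (d j))

/-- `G` is of type `F_n`: finitely generated if `n ≥ 1`, finitely presented and of type `FP_n` if
`n ≥ 2`. -/
def TypeF (n : ℕ) (G : Type) [Group G] : Prop :=
  (1 ≤ n → Group.FG G) ∧ (2 ≤ n → FinitelyPresented G ∧ TypeFP n G)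

/-! ### comparison with the form in which the theorem is proved -/

section
open Pool.Agent.TH18 Pool.Agent.TH18.NN Pool.Agent.TH18.VS Pool.Agent.H349.QP

theorem fp_of_type {m : ℕ} {G : Type} [Group G] (h : TypeFP m G) : FPg m G := by
  obtain ⟨k, ε, d, he, hone, hex0, hex⟩ := h
  have hε : ∀ x, ε x = Pool.Agent.TH18.augR G x := by
    intro x
    induction x using MonoidAlgebra.induction_on with
    | of g => rw [he, Pool.Agent.TH18.augR_of]
    | add a b ha hb => rw [map_add, map_add, ha, hb]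
    | smul r a ha => rw [map_zsmul, map_zsmul, ha]
  have htot : ∀ x : Fin (k 0) → MonoidAlgebra ℤ G, ∑ j, ε (x j) = Pool.Agent.TH18.NN.tot x :=
    fun x => Finset.sum_congr rfl fun i _ => hε _
  let F : NRes G m := by
    refine ⟨k, d, ?_, ?_, ?_⟩
    · obtain ⟨x, hx⟩ := hone
      exact ⟨x, by rw [← htot]; exact hx⟩
    · intro hl x
      rw [← htot]
      exact hex0 hl x
    · intro j hj x
      have h3 := hex j hj
      constructor
      · intro hx
        have : x ∈ LinearMap.ker (d j) := hx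
        rw [← h3] at this
        exact this
      · intro hx
        have : x ∈ LinearMap.range (d (j + 1)) := hx
        rw [h3] at this
        exact this
  exact F.fpm

theorem type_of_fp {m : ℕ} {G : Type} [Group G] (h : FPg (m + 1) G) : TypeFP (m + 1) G := by
  obtain ⟨F⟩ := fpm_res h
  refine ⟨F.k, augR _, F.d, augR_of _, F.one, F.ex0, ?_⟩
  intro j hj
  ext x
  exact (F.ex j hj x).symm

theorem pf_of_typeF {n : ℕ} (hn : 1 ≤ n) {G : Type} [Group G] (h : TypeF n G) : PF n G := by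
  refine ⟨?_, fun h2 => (h.2 h2).1⟩
  rcases Nat.lt_or_ge 1 n with h1 | h1
  · exact fp_of_type (h.2 h1).2
  · obtain rfl : n = 1 := le_antisymm h1 hn
    have := h.1 le_rfl
    exact FPg.of_fg G

theorem typeF_of_pf {n : ℕ} {G : Type} [Group G] (h : PF n G) : TypeF n G := by
  refine ⟨fun h1 => h.fg h1, fun h2 => ⟨h.2 h2, ?_⟩⟩
  obtain ⟨m, rfl⟩ : ∃ m, n = m + 1 := ⟨n - 1, by omega⟩
  exact type_of_fp h.1

theorem pf_congr {n : ℕ} {G H : Type} [Group G] [Group H] (e : G ≃* H) (h : PF n G) : PF n H := by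
  refine ⟨h.1.congr e, fun h2 => ?_⟩
  obtain ⟨r, f, S, hf, hS⟩ := h.2 h2
  refine ⟨r, e.toMonoidHom.comp f, S, e.surjective.comp hf, ?_⟩
  rw [← hS]
  ext x
  show e (f x) = 1 ↔ f x = 1
  exact map_eq_one_iff e e.injective

variable {𝕊 : Type} {P : Set (Set 𝕊)} {G : P → Type} [∀ R, Group (G R)]

theorem star_fst_eq (Q : QuandleSystem P G) (k : Σ R, G R) (R : P) (hR : R.1 ⊂ k.1.1) (g g' : G R) :
    (Q.star k ⟨R, g⟩).1 = (Q.star k ⟨R, g'⟩).1 := by
  obtain ⟨R', e, _, h⟩ := Q.iso k.1 k.2 R hR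
  have h1 := h g
  have h2 := h g'
  rw [show Q.star k ⟨R, g⟩ = _ from h1, show Q.star k ⟨R, g'⟩ = _ from h2]

theorem star_below (Q : QuandleSystem P G) (k x : Σ R, G R) (h : x.1.1 ⊂ k.1.1) :
    (Q.star k x).1.1 ⊂ k.1.1 := by
  obtain ⟨R', e, h1, h2⟩ := Q.iso k.1 k.2 x.1 h
  rw [show Q.star k x = _ from h2 x.2]
  exact h1

theorem star_inv (Q : QuandleSystem P G) (hQ : Q.RightAction) (S : P) (h : G S) (x : Σ R, G R)
    (hx : x.1.1 ⊂ S.1) : Q.star ⟨S, h⁻¹⟩ (Q.star ⟨S, h⟩ x) = x := by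
  rw [← hQ S h h⁻¹ x hx, mul_inv_cancel, Q.one_star S x hx]

theorem strict (Q : QuandleSystem P G) (hQ : Q.RightAction) (k x y : Σ R, G R)
    (hx : x.1.1 ⊂ k.1.1) (hy : y.1.1 ⊂ k.1.1) (hxy : x.1.1 ⊂ y.1.1) :
    (Q.star k x).1.1 ⊂ (Q.star k y).1.1 := by
  refine (Q.subset k x y hx hy hxy.subset).ssubset_of_ne ?_
  intro heq
  have h1 : (Q.star k x).1 = (Q.star k y).1 := Subtype.ext heq
  have h2 := star_inv Q hQ k.1 k.2 x hx
  have h3 := star_inv Q hQ k.1 k.2 y hy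
  have h4 : (Q.star ⟨k.1, k.2⁻¹⟩ (Q.star k x)).1 = (Q.star ⟨k.1, k.2⁻¹⟩ (Q.star k y)).1 := by
    obtain ⟨R, g, hg⟩ : ∃ R g, Q.star k x = ⟨R, g⟩ := ⟨_, _, rfl⟩
    obtain ⟨R', g', hg'⟩ : ∃ R g, Q.star k y = ⟨R, g⟩ := ⟨_, _, rfl⟩
    have hb := star_below Q k x hx
    rw [hg, hg'] at h1
    have h1' : R = R' := h1
    subst h1'
    rw [hg] at hb
    rw [hg, hg']
    exact star_fst_eq Q ⟨k.1, k.2⁻¹⟩ R hb g g'
  have h5 : x.1 = y.1 := by
    have e1 : (Q.star ⟨k.1, k.2⁻¹⟩ (Q.star k x)).1 = x.1 := congrArg Sigma.fst h2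
    have e2 : (Q.star ⟨k.1, k.2⁻¹⟩ (Q.star k y)).1 = y.1 := congrArg Sigma.fst h3
    rw [← e1, ← e2, h4]
  rw [h5] at hxy
  exact hxy.ne rfl

/-- the abstract system -/
def toSys (Q : QuandleSystem P G) (hQ : Q.RightAction) : Sys P G where
  lt R S := R.1 ⊂ S.1
  dj R S := Disjoint R.1 S.1
  star := Q.star
  lt_trans _ _ _ h1 h2 := h1.trans h2
  lt_irrefl _ h := h.ne rfl
  dj_symm _ _ h := h.symm
  dj_lt _ _ _ h1 h2 := h2.mono_left h1.subset
  lt_dj i j h1 h2 := by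
    obtain ⟨a, ha⟩ := Q.nonempty i.1 i.2
    exact Set.disjoint_left.1 h2 ha (h1.subset ha)
  hom j h i hi := by
    obtain ⟨R', e, h1, h2⟩ := Q.iso j h i hi
    exact ⟨R', e.toMonoidHom, h1, h2⟩
  one := Q.one_star
  mul j h k x hx := hQ j h k x hx
  lt_star k x y hx hy hxy := strict Q hQ k x y hx hy hxy
  dj_star := Q.disjoint
  quandle := Q.quandle

theorem right_case (n : ℕ) (hP : P.Finite) (Q : QuandleSystem P G) (hQ : Q.RightAction)
    (hG : ∀ R, PF n (G R)) : PF n Q.Product := by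
  have : Finite P := hP
  have hns : (toSys Q hQ).NS := by
    intro i hi
    obtain ⟨a, ha⟩ := Q.nonempty i.1 i.2
    exact Set.disjoint_left.1 hi ha ha
  have h1 := (toSys Q hQ).final hns n hG
  refine pf_congr (QuotientGroup.quotientMulEquivOfEq ?_) h1
  congr 1
  ext w
  constructor
  · rintro (⟨x, hx, rfl⟩ | ⟨x, y, _, _, h, rfl⟩ | ⟨x, y, _, _, h, rfl⟩)
    · exact absurd trivial hx
    · exact Or.inl ⟨x, y, h, rfl⟩
    · exact Or.inr ⟨x, y, h, rfl⟩
  · rintro (⟨x, y, h, rfl⟩ | ⟨x, y, h, rfl⟩)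
    · exact Or.inr (Or.inl ⟨x, y, trivial, trivial, h, rfl⟩)
    · exact Or.inr (Or.inr ⟨x, y, trivial, trivial, h, rfl⟩)

/-- the opposite system: `h ∗' x = h⁻¹ ∗ x` -/
def opp (Q : QuandleSystem P G) (hQ : Q.LeftAction) : QuandleSystem P G where
  star h x := Q.star ⟨h.1, h.2⁻¹⟩ x
  nonempty := Q.nonempty
  iso S h R hR := Q.iso S h⁻¹ R hR
  one_star S x hx := by
    show Q.star ⟨S, 1⁻¹⟩ x = x
    rw [inv_one]; exact Q.one_star S x hx
  subset k x y hx hy h := Q.subset ⟨k.1, k.2⁻¹⟩ x y hx hy h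
  disjoint k x y hx hy h := Q.disjoint ⟨k.1, k.2⁻¹⟩ x y hx hy h
  quandle k h g hh hg := by
    show Q.star ⟨k.1, k.2⁻¹⟩ (Q.star ⟨h.1, h.2⁻¹⟩ g) =
      Q.star ⟨(Q.star ⟨k.1, k.2⁻¹⟩ h).1, (Q.star ⟨k.1, k.2⁻¹⟩ h).2⁻¹⟩ (Q.star ⟨k.1, k.2⁻¹⟩ g)
    rw [Q.quandle ⟨k.1, k.2⁻¹⟩ ⟨h.1, h.2⁻¹⟩ g hh hg]
    congr 1
    obtain ⟨R', e, _, h2⟩ := Q.iso k.1 k.2⁻¹ h.1 hh
    have e1 : Q.star ⟨k.1, k.2⁻¹⟩ h = ⟨R', e h.2⟩ := h2 h.2
    rw [h2 h.2⁻¹, e1]
    show (⟨R', e h.2⁻¹⟩ : Σ R, G R) = ⟨R', (e h.2)⁻¹⟩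
    rw [map_inv]

theorem left_case (n : ℕ) (hP : P.Finite) (Q : QuandleSystem P G) (hQ : Q.LeftAction)
    (hG : ∀ R, PF n (G R)) : PF n Q.LeftProduct := by
  have hQ' : (opp Q hQ).RightAction := by
    intro S h k x hx
    show Q.star ⟨S, (h * k)⁻¹⟩ x = Q.star ⟨S, k⁻¹⟩ (Q.star ⟨S, h⁻¹⟩ x)
    rw [mul_inv_rev]
    exact hQ S k⁻¹ h⁻¹ x hx
  have h1 := right_case n hP (opp Q hQ) hQ' hG
  refine pf_congr (QuotientGroup.quotientMulEquivOfEq ?_) h1
  apply le_antisymm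
  · apply Subgroup.normalClosure_le_normal
    rintro w (⟨x, y, h, rfl⟩ | ⟨x, y, h, rfl⟩)
    · exact Subgroup.subset_normalClosure (Or.inl ⟨x, y, h, rfl⟩)
    · -- `x y = y (y ∗' x)`: put `g = y ∗' x`, so that `y ∗ g = x`
      have hb : (Q.star ⟨y.1, y.2⁻¹⟩ x).1.1 ⊂ y.1.1 := star_below Q ⟨y.1, y.2⁻¹⟩ x h
      have e1 : Q.star y (Q.star ⟨y.1, y.2⁻¹⟩ x) = x := by
        have := hQ y.1 y.2 y.2⁻¹ x h
        rw [mul_inv_cancel, Q.one_star y.1 x h] at this
        exact this.symm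
      have h2 : gen y * gen (Q.star ⟨y.1, y.2⁻¹⟩ x) *
          (gen (Q.star y (Q.star ⟨y.1, y.2⁻¹⟩ x)) * gen y)⁻¹ ∈ Subgroup.normalClosure
          (commRels G ∪ Q.leftRels) :=
        Subgroup.subset_normalClosure (Or.inr ⟨_, y, hb, rfl⟩)
      rw [e1] at h2
      have h3 := Subgroup.inv_mem _ h2
      rw [mul_inv_rev, inv_inv] at h3
      exact h3
  · apply Subgroup.normalClosure_le_normal
    rintro w (⟨x, y, h, rfl⟩ | ⟨x, y, h, rfl⟩)
    · exact Subgroup.subset_normalClosure (Or.inl ⟨x, y, h, rfl⟩)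
    · have hb : (Q.star y x).1.1 ⊂ y.1.1 := star_below Q y x h
      have e1 : Q.star ⟨y.1, y.2⁻¹⟩ (Q.star y x) = x := by
        have := hQ y.1 y.2⁻¹ y.2 x h
        rw [inv_mul_cancel, Q.one_star y.1 x h] at this
        exact this.symm
      have h2 : gen (Q.star y x) * gen y *
          (gen y * gen ((opp Q hQ).star y (Q.star y x)))⁻¹ ∈ Subgroup.normalClosure
          (commRels G ∪ (opp Q hQ).rels) :=
        Subgroup.subset_normalClosure (Or.inr ⟨_, y, hb, rfl⟩)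
      rw [show (opp Q hQ).star y (Q.star y x) = x from e1] at h2
      have h3 := Subgroup.inv_mem _ h2
      rw [mul_inv_rev, inv_inv] at h3
      exact h3

end

/-- **Quandle products of finitely many groups of type `F_n` are of type `F_n`**, `n ≥ 1`; no
hypothesis on the holonomy is needed. -/
theorem result (n : ℕ) (hn : 1 ≤ n) {𝕊 : Type} (P : Set (Set 𝕊)) (hP : P.Finite) (G : P → Type)
    [∀ R, Group (G R)] (Q : QuandleSystem P G) (hG : ∀ R, TypeF n (G R)) :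
    (Q.RightAction → TypeF n Q.Product) ∧ (Q.LeftAction → TypeF n Q.LeftProduct) :=
  ⟨fun h => typeF_of_pf (right_case n hP Q h fun R => pf_of_typeF hn (hG R)),
    fun h => typeF_of_pf (left_case n hP Q h fun R => pf_of_typeF hn (hG R))⟩

end Pool.Agent.Results.MP_c78901_al.TypeFn
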